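import Pool.Agent.H987.Y.StA
import Pool.Agent.H194.Z987.Conv
import Pool.Agent.H650.Z987.Free0

/-! Subtask Y-K7 of project Y of helper987: the free Green function. -/

set_option autoImplicit false
set_option linter.unusedSectionVars false

open scoped BigOperators InnerProductSpace Topology
open Filter MeasureTheory

namespace Pool.Agent.H909.Y987

open Pool.Agent.H987.Y
open Pool.Agent.Y662.TR (LL Cf Mw dv hu ll_ext dv_apply sub_coord smul_coord Cf_apply)
open Pool.Agent.TH369.AN (Rz rz_eq rz_uniq)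
open Pool.Agent.H987.Z (Rs Gr gZ KT b0)

section

variable {ι : Type}

open Classical in
/-- the unit vector, with real values -/
noncomputable def del (a s : ι) : ℝ := if s = a then 1 else 0

theorem del_self (a : ι) : del a a = 1 := if_pos rfl

theorem del_ne {a s : ι} (h : s ≠ a) : del a s = 0 := if_neg h

theorem del_nonneg (a s : ι) : 0 ≤ del a s := by
  unfold del
  split_ifs <;> norm_num

theorem del_iff {κ : Type} {a s : ι} {a' s' : κ} (h : s = a ↔ s' = a') : del a s = del a' s' := by
  unfold del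
  by_cases h1 : s = a
  · rw [if_pos h1, if_pos (h.1 h1)]
  · rw [if_neg h1, if_neg (fun h2 => h1 (h.2 h2))]

theorem hs1 (a : ι) : HasSum (fun s : ι => del a s) 1 := by
  have h := hasSum_single (f := fun s : ι => del a s) a (fun b hb => del_ne hb)
  rwa [del_self] at h

theorem hsC (a : ι) (f : ι → ℂ) : HasSum (fun s => ((del a s : ℝ) : ℂ) * f s) (f a) := by
  have h := hasSum_single (f := fun s => ((del a s : ℝ) : ℂ) * f s) a (by
    intro b hb
    rw [del_ne hb, Complex.ofReal_zero, zero_mul])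
  rwa [del_self, Complex.ofReal_one, one_mul] at h

end

section

variable {d : ℕ}

theorem kf_eq (x y : Lt d) : kf d x y = (2 * (d : ℝ)) * del x y -
    ∑ i : Fin d, (del (x + Pi.single i 1) y + del (x - Pi.single i 1) y) := by
  unfold kf
  congr 1
  · by_cases h : x = y
    · rw [if_pos h, h, del_self, mul_one]
    · rw [if_neg h, del_ne (Ne.symm h), mul_zero]
  · refine Finset.sum_congr rfl fun i _ => ?_
    unfold del
    congr

theorem kf_sy (x y : Lt d) : kf d x y = kf d y x := by
  rw [kf_eq, kf_eq]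
  congr 1
  · congr 1
    exact del_iff ⟨Eq.symm, Eq.symm⟩
  · refine Finset.sum_congr rfl fun i _ => ?_
    rw [add_comm]
    congr 1
    · exact del_iff ⟨fun h => by rw [h]; abel, fun h => by rw [h]; abel⟩
    · exact del_iff ⟨fun h => by rw [h]; abel, fun h => by rw [h]; abel⟩

theorem kf_tr (x y v : Lt d) : kf d (x + v) (y + v) = kf d x y := by
  rw [kf_eq, kf_eq]
  congr 1
  · congr 1
    exact del_iff (add_left_inj v)
  · refine Finset.sum_congr rfl fun i _ => ?_
    congr 1
    · apply del_iff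
      rw [add_right_comm, add_left_inj]
    · apply del_iff
      rw [add_sub_right_comm, add_left_inj]

theorem kf_maj (x : Lt d) : HasSum (fun y : Lt d => (2 * (d : ℝ)) * del x y +
    ∑ i : Fin d, (del (x + Pi.single i 1) y + del (x - Pi.single i 1) y)) (4 * d) := by
  have h1 := (hs1 x).mul_left (2 * (d : ℝ))
  have h2 := hasSum_sum (s := (Finset.univ : Finset (Fin d))) (fun i _ =>
    (hs1 (x + Pi.single i 1)).add (hs1 (x - Pi.single i 1)))
  have h3 := h1.add h2
  have h4 : (4 * (d : ℝ)) = 2 * d * 1 + ∑ i : Fin d, ((1 : ℝ) + 1) := by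
    simp only [Finset.sum_const, Finset.card_univ, Fintype.card_fin, nsmul_eq_mul]
    ring
  rw [h4]
  exact h3

theorem kf_le (x y : Lt d) : |kf d x y| ≤ (2 * (d : ℝ)) * del x y +
    ∑ i : Fin d, (del (x + Pi.single i 1) y + del (x - Pi.single i 1) y) := by
  rw [kf_eq]
  refine (abs_sub _ _).trans ?_
  rw [abs_of_nonneg (mul_nonneg (by positivity) (del_nonneg _ _)),
    abs_of_nonneg (Finset.sum_nonneg fun i _ => add_nonneg (del_nonneg _ _) (del_nonneg _ _))]

theorem kf_ker : Ker (4 * d) (kf d) where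
  h0 := by positivity
  sy := kf_sy
  sm x := Summable.of_nonneg_of_le (fun _ => abs_nonneg _) (kf_le x) (kf_maj x).summable
  le x := by
    rw [← (kf_maj x).tsum_eq]
    exact (Summable.of_nonneg_of_le (fun _ => abs_nonneg _) (kf_le x)
      (kf_maj x).summable).tsum_le_tsum (kf_le x) (kf_maj x).summable

theorem kf_rng (x y : Lt d) (h : kf d x y ≠ 0) (i : Fin d) : |x i - y i| ≤ (1 : ℕ) := by
  rw [kf_eq] at h
  have key : y = x ∨ ∃ j : Fin d, y = x + Pi.single j 1 ∨ y = x - Pi.single j 1 := by
    by_contra hcon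
    push Not at hcon
    obtain ⟨h1, h2⟩ := hcon
    apply h
    rw [del_ne h1, mul_zero, zero_sub, neg_eq_zero]
    refine Finset.sum_eq_zero fun j _ => ?_
    rw [del_ne (h2 j).1, del_ne (h2 j).2, add_zero]
  rcases key with rfl | ⟨j, rfl | rfl⟩
  · simp
  · by_cases hij : i = j
    · subst hij
      simp
    · simp [hij]
  · by_cases hij : i = j
    · subst hij
      simp
    · simp [hij]

theorem kf_net : Net 1 1 (4 * d) (kf d) where
  ker := kf_ker
  per _ _ _ := kf_tr _ _ _
  rng := kf_rng

theorem kf_act (h1 : S_op) (u : LL (Lt d)) (x : Lt d) :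
    Op (kf d) u x = (2 * d) * u x - ∑ i : Fin d,
      (u (x + Pi.single i 1) + u (x - Pi.single i 1)) := by
  rw [((h1 (Lt d) (kf d) (4 * d) kf_ker).1 u x).2]
  have e1 := (hsC x (fun s => u s)).mul_left (2 * (d : ℂ))
  have e2 := hasSum_sum (s := (Finset.univ : Finset (Fin d))) (fun i _ =>
    (hsC (x + Pi.single i 1) (fun s => u s)).add (hsC (x - Pi.single i 1) (fun s => u s)))
  have e3 := e1.sub e2
  rw [← e3.tsum_eq]
  refine tsum_congr fun s => ?_
  rw [kf_eq]
  push_cast
  rw [sub_mul, Finset.sum_mul]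
  congr 1
  · rw [mul_assoc]
  · refine Finset.sum_congr rfl fun i _ => ?_
    rw [add_mul]

end

theorem free (h1 : S_op) : Pool.Agent.H987.Y.S_free := by
  intro d
  refine ⟨kf_ker, kf_net, kf_tr, fun z hz => ?_⟩
  have hc := Pool.Agent.H194.Z987.conv
  set id' : Multiplicative (Fin d → ℤ) →* Multiplicative (Fin d → ℤ) := MonoidHom.id _ with hid
  have sa2 : IsSelfAdjoint (KT (b0 id')) :=
    (hc _ _ (fun s => Equiv.mulRight s) Pool.Agent.H650.Z987.ra_mul (b0 id') (b0 id')
      (Pool.Agent.H650.Z987.b0_Sy id') (Pool.Agent.H650.Z987.b0_Sy id')).2.2.1.sa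
  have sa1 : IsSelfAdjoint (Op (kf d)) := (h1 (Lt d) (kf d) (4 * d) kf_ker).2.2.1.sa
  set u : LL (Multiplicative (Fin d → ℤ)) := Rz (KT (b0 id')) z (dv 1) with hu
  have hu1 := rz_eq (KT (b0 id')) sa2 z hz (dv 1)
  rw [← hu] at hu1
  have hue : ∀ y, (2 * d) * u y - ∑ i : Fin d,
      (u (y * (Multiplicative.ofAdd (Pi.single i 1))) +
        u (y * (Multiplicative.ofAdd (Pi.single i (-1))))) - z * u y = dv 1 y := by
    intro y
    have h := congrArg (fun v : LL (Multiplicative (Fin d → ℤ)) => v y) hu1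
    simp only [sub_coord, smul_coord] at h
    rw [Pool.Agent.H650.Z987.KT_b0 hc] at h
    exact h
  have hinj : Function.Injective (fun x : Lt d => Multiplicative.ofAdd x) :=
    Multiplicative.ofAdd.injective
  set w : LL (Lt d) := Cf (fun x : Lt d => Multiplicative.ofAdd x) hinj u with hw
  have hwx : ∀ x : Lt d, w x = u (Multiplicative.ofAdd x) := fun x => rfl
  have hkey : Op (kf d) w - z • w = dv 0 := by
    apply ll_ext
    intro x
    rw [sub_coord, smul_coord, kf_act h1]
    have h2 := hue (Multiplicative.ofAdd x)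
    have h3 : (dv (1 : Multiplicative (Fin d → ℤ)) : LL _) (Multiplicative.ofAdd x) =
        (dv (0 : Lt d) : LL (Lt d)) x := by
      rw [dv_apply, dv_apply]
      by_cases hx : x = 0
      · rw [if_pos hx, if_pos (ofAdd_eq_one.2 hx)]
      · rw [if_neg hx, if_neg (fun h => hx (ofAdd_eq_one.1 h))]
    refine Eq.trans ?_ (h2.trans h3)
    have h4 : ∀ i : Fin d, x - Pi.single i 1 = x + Pi.single i (-1) := by
      intro i
      rw [Pi.single_neg, sub_eq_add_neg]
    simp only [hwx, h4, ofAdd_add]
  have hfin := rz_uniq (Op (kf d)) sa1 z hz w (dv 0) hkey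
  unfold gZ Gr
  rw [← hfin, ← hid, ← hu, hwx]
  rfl

end Pool.Agent.H909.Y987
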