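import Pool.Agent.H987.Y.StB
import Pool.Agent.H304.Z987.Green
import Pool.Agent.H284.Z987.Close
import Pool.Agent.H909.Y987.Free

/-! Subtask Y-N2 of project Y of helper987: comparison with the free operator. -/

set_option autoImplicit false
set_option linter.unusedSectionVars false

open scoped BigOperators InnerProductSpace Topology
open Filter MeasureTheory

namespace Pool.Agent.H909.Y987

open Pool.Agent.H987.Y
open Pool.Agent.Y662.TR (LL Cf Mw dv hu ll_ext dv_apply sub_coord smul_coord Cf_apply)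
open Pool.Agent.TH369.AN (Rz rz_eq rz_uniq)
open Pool.Agent.H987.Z (Rs Gr gZ Fr)
open Pool.Agent.H284.Z987 (int_le hu_sq_small)

/-- the kernel of the tree minus the kernel of the free tree is the kernel of a tree -/
theorem kB_diff {X Ω : Type} {n : ℕ} (k : Ω → X → X → ℝ) (k0 : X → X → ℝ) (f : Bool) (o : X)
    (a : ℝ) (W : List (Ix X n) → Ω) :
    (fun v v' => kB k f o a W v v' - kB (fun _ : Ω => k0) f o 0 W v v') =
      kB (fun (l : List (Ix X n)) x y => k (W l) x y - k0 x y) f o a id := by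
  classical
  funext v v'
  unfold kB
  by_cases h : v.1 = v'.1
  · rw [if_pos h, if_pos h, if_pos h]
    simp only [id]
    ring
  · rw [if_neg h, if_neg h, if_neg h]
    ring

/-- the free Green function on the tree -/
theorem free_treek (h1 : S_op) (h4 : S_troot) {d n : ℕ} {Ω : Type} (f : Bool)
    (W : List (Ix (Lt d) n) → Ω) (z : ℂ) (hz : z.im ≠ 0) :
    GB (fun _ : Ω => kf d) f 0 0 W z = Gr (Op (kf d)) z 0 0 := by
  obtain ⟨-, h5⟩ := h4 (Lt d) Ω n (fun _ => kf d) (4 * d) (fun _ => kf_ker) f 0 0 W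
  obtain ⟨φ, h6, h7⟩ := h5 z hz
  have hsa : IsSelfAdjoint (Op (kf d)) := (h1 (Lt d) (kf d) (4 * d) kf_ker).2.2.1.sa
  have h8 : φ = Rz (Op (kf d)) z (dv 0) := by
    refine rz_uniq (Op (kf d)) hsa z hz φ (dv 0) (ll_ext fun x => ?_)
    have h9 := h7 x
    rw [sub_coord, smul_coord, ← h9]
    simp
  unfold GB
  rw [← h6 0, h8]
  rfl

theorem closek (h1 : S_op) (h4 : S_troot) : Pool.Agent.H987.Y.S_closek := by
  intro d α β c C hF θ η hθ hη
  have hg := Pool.Agent.H304.Z987.green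
  have hc0 := hF.c0
  obtain ⟨m, hm⟩ : ∃ m, m = min 1 η := ⟨_, rfl⟩
  have hm0 : 0 < m := by rw [hm]; positivity
  have hm1 : m ≤ 1 := by rw [hm]; exact min_le_left _ _
  have hmη : m ≤ η := by rw [hm]; exact min_le_right _ _
  obtain ⟨δ, hδ⟩ : ∃ δ, δ = θ ^ 2 * (c / 2 * m) := ⟨_, rfl⟩
  have hδ0 : 0 < δ := by rw [hδ]; positivity
  have hδ2 : δ / θ ^ 2 ≤ c / 2 * m := by
    rw [div_le_iff₀ (by positivity), hδ]
    linarith
  refine ⟨δ, hδ0, fun Ω _ P _ k h δ' hk hkm hae z hz1 hz2 hz3 hz4 => ?_⟩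
  have hz0 : 0 < z.im := hθ.trans_le hz3
  have hgz : c ≤ (gZ d z).im := hF.lo z hz1 hz2 hz0 hz4
  -- a general comparison
  have main : ∀ (ι : Type) (T T' : LL ι →L[ℂ] LL ι) (x : ι), Rs T → Rs T' → ‖T - T'‖ ≤ δ →
      Gr T' z x x = gZ d z → |hu (Gr T z x x) (gZ d z) ^ 2| ≤ η := by
    intro ι T T' x hT hT' hd hx
    obtain ⟨-, -, -, -, -, g5, -, -⟩ := hg ι T hT
    have e1 := g5 T' z x x hT' hz0
    rw [hx] at e1
    refine le_trans (hu_sq_small hc0 hm0 hm1 hgz (e1.trans (le_trans ?_ hδ2))) hmη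
    have e2 : θ ^ 2 ≤ z.im ^ 2 := pow_le_pow_left₀ hθ.le hz3 2
    gcongr
  have hfree : Gr (Op (kf d)) z 0 0 = gZ d z := (free h1 d).2.2.2 z hz0.ne'
  constructor
  · intro hN
    refine int_le _ _ ?_
    filter_upwards [hae] with ω hω
    obtain ⟨-, -, e1, -, e2⟩ := h1 (Lt d) (k ω) h (hk ω)
    obtain ⟨-, -, e3, -, -⟩ := h1 (Lt d) (kf d) (4 * d) kf_ker
    exact main _ _ _ _ e1 e3 ((e2 (kf d) (4 * d) δ' kf_ker hω).trans hN) hfree
  · intro n a hN f
    refine int_le _ _ ?_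
    have hall : ∀ᵐ W ∂(Measure.infinitePi fun _ : List (Ix (Lt d) n) => P), ∀ l,
        Ker δ' fun x y => k (W l) x y - kf d x y := by
      rw [ae_all_iff]
      intro l
      have e1 := measurePreserving_eval_infinitePi (fun _ : List (Ix (Lt d) n) => P) l
      exact e1.quasiMeasurePreserving.ae hae
    filter_upwards [hall] with W hW
    obtain ⟨e1, -⟩ := h4 (Lt d) Ω n k h hk f 0 a W
    obtain ⟨e2, -⟩ := h4 (Lt d) Ω n (fun _ => kf d) (4 * d) (fun _ => kf_ker) f 0 0 W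
    obtain ⟨e3, -⟩ := h4 (Lt d) (List (Ix (Lt d) n)) n
      (fun l x y => k (W l) x y - kf d x y) δ' hW f 0 a id
    rw [← kB_diff] at e3
    obtain ⟨-, -, r1, -, r2⟩ := h1 _ _ _ e1
    obtain ⟨-, -, r3, -, -⟩ := h1 _ _ _ e2
    exact main _ _ _ _ r1 r3 ((r2 _ _ _ e2 e3).trans hN)
      ((free_treek h1 h4 f W z hz0.ne').trans hfree)

end Pool.Agent.H909.Y987
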